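import Pool.Agent.Lib_helper26.SDN.Defs

/-!
Definitions for the vertex absorber (project SNF, MP_b4ec45_co): segments of a rainbow path with
fixed ends and fixed colours which visit a fixed set `Q` of vertices and any subset `W'` of given
size `h` of a flexible set `W`, `|W| = 2 h`.
-/

namespace Pool.Agent.ABS

open Finset Pool.Agent.SDN

variable {V : Type*} [AddCommGroup V]

/-- parameters of a gadget -/
structure Par (V : Type*) where
  /-- first start -/
  p : V
  /-- sum of the two colours of a pair -/
  D : V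
  /-- second start -/
  q : V
  /-- third start -/
  r : V
  /-- colour of the first switch -/
  c : V
  /-- colour of the second switch -/
  d : V

/-- first colour of a pair -/
def ca (w : Fin 3 → V) (P : Par V) (i : Fin 3) : V := w i - P.p

/-- second colour of a pair -/
def cb (w : Fin 3 → V) (P : Par V) (i : Fin 3) : V := P.D - (w i - P.p)

/-- second colour of the first switch -/
def c' (w : Fin 3 → V) (P : Par V) : V := P.c + (w 1 - w 0)

/-- second colour of the second switch -/
def d' (w : Fin 3 → V) (P : Par V) : V := P.d + (w 2 - w 1)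

/-- the 14 fixed vertices of a gadget -/
def fv (w : Fin 3 → V) (P : Par V) : List V :=
  [P.p, P.p + P.D, P.q, P.q + P.D, P.r, P.r + P.D,
    P.q + ca w P 0, P.q + ca w P 1, P.r + ca w P 1, P.r + ca w P 2,
    P.q + ca w P 0 - P.c, P.q + ca w P 1 + P.c, P.r + ca w P 1 - P.d, P.r + ca w P 2 + P.d]

/-- the 10 colours of a gadget -/
def co (w : Fin 3 → V) (P : Par V) : List V :=
  [ca w P 0, cb w P 0, ca w P 1, cb w P 1, ca w P 2, cb w P 2, P.c, c' w P, P.d, d' w P]

/-- starts of the five pieces -/
def sg (w : Fin 3 → V) (P : Par V) : Fin 5 → V :=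
  ![P.p, P.q, P.r, P.q + ca w P 0 - P.c, P.r + ca w P 1 - P.d]

/-- ends of the five pieces -/
def se (w : Fin 3 → V) (P : Par V) : Fin 5 → V :=
  ![P.p + P.D, P.q + P.D, P.r + P.D, P.q + ca w P 1 + P.c, P.r + ca w P 2 + P.d]

/-- steps of the five pieces if the vertex `w k` is to be visited -/
def sl (w : Fin 3 → V) (P : Par V) : Fin 3 → Fin 5 → List V :=
  ![![[ca w P 0, cb w P 0], [ca w P 1, cb w P 1], [ca w P 2, cb w P 2], [P.c, c' w P],
      [P.d, d' w P]],
    ![[ca w P 1, cb w P 1], [ca w P 0, cb w P 0], [ca w P 2, cb w P 2], [c' w P, P.c],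
      [P.d, d' w P]],
    ![[ca w P 2, cb w P 2], [ca w P 0, cb w P 0], [ca w P 1, cb w P 1], [c' w P, P.c],
      [d' w P, P.d]]]

/-- a gadget for the triple `w` with vertices outside `U` and colours outside `FC` -/
structure Gad (U FC : Finset V) (w : Fin 3 → V) (P : Par V) : Prop where
  nd : (fv w P).Nodup
  out : ∀ u ∈ fv w P, u ∉ U
  cnd : (co w P).Nodup
  cmem : ∀ a ∈ co w P, a ∉ FC

end Pool.Agent.ABS
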