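import Pool.Agent.Lib_helper8.ABS.GA

/-! Greedy embedding of gadgets. -/

namespace Pool.Agent.ABS

open Finset

theorem fv_length {V : Type*} [AddCommGroup V] (w : Fin 3 → V) (P : Par V) :
    (fv w P).length = 14 := rfl

theorem co_length {V : Type*} [AddCommGroup V] (w : Fin 3 → V) (P : Par V) :
    (co w P).length = 10 := rfl

theorem Gad.mono {V : Type*} [AddCommGroup V] {U U' FC FC' : Finset V} {w : Fin 3 → V}
    {P : Par V} (h : Gad U' FC' w P) (hU : U ⊆ U') (hC : FC ⊆ FC') : Gad U FC w P :=
  ⟨h.nd, fun u hu hu' => h.out u hu (hU hu'), h.cnd, fun a ha ha' => h.cmem a ha (hC ha')⟩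

open Classical in
/-- greedy embedding of gadgets for all triples -/
theorem embed {V : Type*} [AddCommGroup V] [Fintype V] (U FC : Finset V)
    {ι κ : Type} [Fintype ι] [Fintype κ] {N : ℕ} (xv : Fin N → V)
    (hxv : Function.Injective xv) (hX : ∀ i, xv i ∈ U) (h0 : (0 : V) ∈ FC)
    (tr : ι → Fin 3 → Fin N ⊕ κ) (htr : ∀ z, Function.Injective (tr z))
    (hc : 4 * (U.card + Fintype.card κ + 14 * Fintype.card ι) +
      4 * (FC.card + 10 * Fintype.card ι) + 200 < Fintype.card V) :
    ∃ (yv : κ → V) (P : ι → Par V), Function.Injective yv ∧ (∀ j, yv j ∉ U) ∧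
      (∀ z, Gad U FC (fun i => Sum.elim xv yv (tr z i)) (P z)) ∧
      (∀ z, ∀ u ∈ fv (fun i => Sum.elim xv yv (tr z i)) (P z), ∀ j, u ≠ yv j) ∧
      (∀ z z', z ≠ z' → List.Disjoint (fv (fun i => Sum.elim xv yv (tr z i)) (P z))
        (fv (fun i => Sum.elim xv yv (tr z' i)) (P z'))) ∧
      (∀ z z', z ≠ z' → List.Disjoint (co (fun i => Sum.elim xv yv (tr z i)) (P z))
        (co (fun i => Sum.elim xv yv (tr z' i)) (P z'))) := by
  -- the vertices `yv`
  have hy : Fintype.card κ ≤ (Uᶜ : Finset V).card := by
    rw [Finset.card_compl]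
    omega
  obtain ⟨yv, hyv, hyU⟩ : ∃ yv : κ → V, Function.Injective yv ∧ ∀ j, yv j ∉ U := by
    have h1 : Fintype.card κ ≤ Fintype.card {x // x ∈ (Uᶜ : Finset V)} := by
      rw [Fintype.card_coe]; exact hy
    obtain ⟨e⟩ := Function.Embedding.nonempty_of_card_le h1
    refine ⟨fun j => (e j).1, fun a b hab => e.injective (Subtype.ext hab), fun j => ?_⟩
    exact Finset.mem_compl.1 (e j).2
  set w : ι → Fin 3 → V := fun z i => Sum.elim xv yv (tr z i) with hw
  have hinj : Function.Injective (Sum.elim xv yv) := by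
    rw [Sum.elim_injective]
    exact ⟨hxv, hyv, fun a b hab => hyU b (hab ▸ hX a)⟩
  have hwi : ∀ z, Function.Injective (w z) := fun z => hinj.comp (htr z)
  set U₀ : Finset V := U ∪ univ.image yv with hU₀
  have hU₀c : U₀.card ≤ U.card + Fintype.card κ :=
    (Finset.card_union_le _ _).trans (Nat.add_le_add_left (Finset.card_image_le.trans
      (by simp)) _)
  have key : ∀ s : Finset ι, ∃ P : ι → Par V, (∀ z ∈ s, Gad U₀ FC (w z) (P z)) ∧
      (∀ z ∈ s, ∀ z' ∈ s, z ≠ z' → List.Disjoint (fv (w z) (P z)) (fv (w z') (P z'))) ∧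
      (∀ z ∈ s, ∀ z' ∈ s, z ≠ z' → List.Disjoint (co (w z) (P z)) (co (w z') (P z'))) := by
    intro s
    induction s using Finset.induction_on with
    | empty =>
      exact ⟨fun _ => ⟨0, 0, 0, 0, 0, 0⟩, by simp, by simp, by simp⟩
    | insert a s has ih =>
      obtain ⟨P, h1, h2, h3⟩ := ih
      set U' : Finset V := U₀ ∪ s.biUnion (fun z => (fv (w z) (P z)).toFinset) with hU'
      set C' : Finset V := FC ∪ s.biUnion (fun z => (co (w z) (P z)).toFinset) with hC'
      have c1 : (s.biUnion (fun z => (fv (w z) (P z)).toFinset)).card ≤ s.card * 14 :=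
        Finset.card_biUnion_le_card_mul _ _ _ fun z _ => List.toFinset_card_le _
      have c2 : (s.biUnion (fun z => (co (w z) (P z)).toFinset)).card ≤ s.card * 10 :=
        Finset.card_biUnion_le_card_mul _ _ _ fun z _ => List.toFinset_card_le _
      have c3 : s.card ≤ Fintype.card ι := Finset.card_le_univ s
      have c4 : U'.card ≤ U₀.card + s.card * 14 :=
        (Finset.card_union_le _ _).trans (Nat.add_le_add_left c1 _)
      have c5 : C'.card ≤ FC.card + s.card * 10 :=
        (Finset.card_union_le _ _).trans (Nat.add_le_add_left c2 _)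
      obtain ⟨p, hp⟩ := gadget U' C' (w a) (hwi a) (by simp [hC', h0]) (by omega)
      have hne : ∀ z ∈ s, z ≠ a := fun z hz h => has (h ▸ hz)
      have hup : ∀ z ∈ s, Function.update P a p z = P z := fun z hz => by
        simp [Function.update_of_ne (hne z hz)]
      have hua : Function.update P a p a = p := by simp
      have hd1 : ∀ z ∈ s, List.Disjoint (fv (w z) (P z)) (fv (w a) p) := by
        intro z hz u hu hu'
        apply hp.out u hu'
        simp only [hU', Finset.mem_union, Finset.mem_biUnion, List.mem_toFinset]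
        exact Or.inr ⟨z, hz, hu⟩
      have hd2 : ∀ z ∈ s, List.Disjoint (co (w z) (P z)) (co (w a) p) := by
        intro z hz u hu hu'
        apply hp.cmem u hu'
        simp only [hC', Finset.mem_union, Finset.mem_biUnion, List.mem_toFinset]
        exact Or.inr ⟨z, hz, hu⟩
      refine ⟨Function.update P a p, ?_, ?_, ?_⟩
      · intro z hz
        rcases Finset.mem_insert.1 hz with rfl | hz
        · rw [hua]
          exact hp.mono (by simp [hU']) (by simp [hC'])
        · rw [hup z hz]
          exact h1 z hz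
      · intro z hz z' hz' hzz
        rcases Finset.mem_insert.1 hz with rfl | hz1
        · rcases Finset.mem_insert.1 hz' with rfl | hz2
          · exact absurd rfl hzz
          · rw [hua, hup z' hz2]
            exact (hd1 z' hz2).symm
        · rcases Finset.mem_insert.1 hz' with rfl | hz2
          · rw [hua, hup z hz1]
            exact hd1 z hz1
          · rw [hup z hz1, hup z' hz2]
            exact h2 z hz1 z' hz2 hzz
      · intro z hz z' hz' hzz
        rcases Finset.mem_insert.1 hz with rfl | hz1
        · rcases Finset.mem_insert.1 hz' with rfl | hz2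
          · exact absurd rfl hzz
          · rw [hua, hup z' hz2]
            exact (hd2 z' hz2).symm
        · rcases Finset.mem_insert.1 hz' with rfl | hz2
          · rw [hua, hup z hz1]
            exact hd2 z hz1
          · rw [hup z hz1, hup z' hz2]
            exact h3 z hz1 z' hz2 hzz
  obtain ⟨P, h1, h2, h3⟩ := key univ
  refine ⟨yv, P, hyv, hyU, fun z => (h1 z (Finset.mem_univ z)).mono (by simp [hU₀])
    (Finset.Subset.refl _), ?_, fun z z' h => h2 z (Finset.mem_univ z) z' (Finset.mem_univ z') h,
    fun z z' h => h3 z (Finset.mem_univ z) z' (Finset.mem_univ z') h⟩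
  intro z u hu j huj
  apply (h1 z (Finset.mem_univ z)).out u hu
  rw [huj, hU₀]
  simp

end Pool.Agent.ABS
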