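import Pool.Agent.Lib_helper8.ABS.Defs

/-! Expanding families of functions. -/

namespace Pool.Agent.ABS

open Finset

theorem EX_real (n₁ n₂ s : ℕ) (hn : n₁ ≤ 2 * n₂) (h0 : 0 < n₂) (hs : 1 ≤ s)
    (h5 : 5 * s ≤ 4 * n₂) :
    (n₁.choose s : ℝ) * (n₂.choose s : ℝ) * ((s : ℝ) ^ (30 * s)) ≤
      (1 / 4 : ℝ) ^ s * (n₂ : ℝ) ^ (30 * s) := by
  have hs' : (0 : ℝ) < s := by exact_mod_cast hs
  have hn' : (0 : ℝ) < n₂ := by exact_mod_cast h0
  have hfac : (0 : ℝ) < (s.factorial : ℝ) := by exact_mod_cast s.factorial_pos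
  have hexp : (s : ℝ) ^ s / (s.factorial : ℝ) ≤ Real.exp 1 ^ s := by
    have := Real.pow_div_factorial_le_exp (s : ℝ) hs'.le s
    rwa [← Real.exp_nat_mul, mul_one]
  have hc1 : (n₁.choose s : ℝ) ≤ (2 * n₂ : ℝ) ^ s / s.factorial := by
    refine (Nat.choose_le_pow_div s n₁).trans ?_
    have : (n₁ : ℝ) ≤ 2 * n₂ := by exact_mod_cast hn
    gcongr
  have hc2 : (n₂.choose s : ℝ) ≤ (n₂ : ℝ) ^ s / s.factorial := Nat.choose_le_pow_div s n₂
  set x : ℝ := s / n₂ with hx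
  have hx0 : 0 < x := by positivity
  have hx1 : x ≤ 4 / 5 := by
    rw [hx, div_le_div_iff₀ hn' (by norm_num)]
    have : (5 * s : ℝ) ≤ 4 * n₂ := by exact_mod_cast h5
    linarith
  have hsx : (s : ℝ) = x * n₂ := by rw [hx]; field_simp
  have he : Real.exp 1 < 2.7182818286 := Real.exp_one_lt_d9
  have he0 : 0 < Real.exp 1 := Real.exp_pos 1
  have hinv : 1 / (s.factorial : ℝ) ≤ Real.exp 1 ^ s / (s : ℝ) ^ s := by
    rw [div_le_div_iff₀ hfac (by positivity)]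
    rw [div_le_iff₀ hfac] at hexp
    linarith
  have h1 : (n₁.choose s : ℝ) ≤ (2 * n₂ : ℝ) ^ s * (Real.exp 1 ^ s / (s : ℝ) ^ s) := by
    refine hc1.trans ?_
    rw [div_eq_mul_one_div]
    gcongr
  have h2 : (n₂.choose s : ℝ) ≤ (n₂ : ℝ) ^ s * (Real.exp 1 ^ s / (s : ℝ) ^ s) := by
    refine hc2.trans ?_
    rw [div_eq_mul_one_div]
    gcongr
  have h3 : (n₁.choose s : ℝ) * (n₂.choose s : ℝ) * ((s : ℝ) ^ (30 * s)) ≤
      ((2 * n₂ : ℝ) ^ s * (Real.exp 1 ^ s / (s : ℝ) ^ s)) *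
        ((n₂ : ℝ) ^ s * (Real.exp 1 ^ s / (s : ℝ) ^ s)) * ((s : ℝ) ^ (30 * s)) := by
    gcongr
  refine h3.trans ?_
  have h4 : ((2 * n₂ : ℝ) ^ s * (Real.exp 1 ^ s / (s : ℝ) ^ s)) *
        ((n₂ : ℝ) ^ s * (Real.exp 1 ^ s / (s : ℝ) ^ s)) * ((s : ℝ) ^ (30 * s)) =
      (2 * Real.exp 1 ^ 2 * x ^ 28) ^ s * (n₂ : ℝ) ^ (30 * s) := by
    rw [pow_mul, pow_mul, ← div_pow, ← mul_pow, ← mul_pow, ← mul_pow, ← mul_pow, ← mul_pow]
    congr 1
    rw [hsx]
    field_simp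
  rw [h4]
  have h5 : 2 * Real.exp 1 ^ 2 * x ^ 28 ≤ 1 / 4 := by
    calc 2 * Real.exp 1 ^ 2 * x ^ 28 ≤ 2 * (2.7182818286 : ℝ) ^ 2 * (4 / 5) ^ 28 := by gcongr
      _ ≤ 1 / 4 := by norm_num
  gcongr

theorem EX_card (n₁ n₂ : ℕ) (T : Finset (Fin n₁)) (S : Finset (Fin n₂)) :
    (Fintype.piFinset fun _ : Fin 30 => Fintype.piFinset fun a : Fin n₁ =>
      if a ∈ T then S else (univ : Finset (Fin n₂))).card =
      (S.card ^ T.card * n₂ ^ (n₁ - T.card)) ^ 30 := by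
  rw [Fintype.card_piFinset, Finset.prod_const, Finset.card_univ, Fintype.card_fin,
    Fintype.card_piFinset]
  congr 1
  have : ∀ a : Fin n₁, (if a ∈ T then S else (univ : Finset (Fin n₂))).card =
      if a ∈ T then S.card else n₂ := by
    intro a
    split_ifs <;> simp
  simp only [this]
  rw [Finset.prod_ite, Finset.prod_const, Finset.prod_const]
  congr 2
  · congr 1
    ext a; simp
  · have : (univ.filter fun a : Fin n₁ => ¬ a ∈ T) = Tᶜ := by ext a; simp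
    rw [this, Finset.card_compl, Fintype.card_fin]

open Classical in
/-- expanding families of functions (random functions, union bound) -/
theorem expander : ∀ n₁ n₂ : ℕ, n₁ ≤ 2 * n₂ → 0 < n₂ →
    ∃ φ : Fin 30 → Fin n₁ → Fin n₂, ∀ T : Finset (Fin n₁), 5 * T.card ≤ 4 * n₂ →
      T.card ≤ (T.biUnion fun a => univ.image fun j => φ j a).card := by
  intro n₁ n₂ hn h0
  by_contra hcon
  push Not at hcon
  set bad : Finset (Fin n₁) → Finset (Fin n₂) → Finset (Fin 30 → Fin n₁ → Fin n₂) :=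
    fun T S => Fintype.piFinset fun _ : Fin 30 => Fintype.piFinset fun a : Fin n₁ =>
      if a ∈ T then S else (univ : Finset (Fin n₂)) with hbad
  have hcov : (univ : Finset (Fin 30 → Fin n₁ → Fin n₂)) ⊆
      (Finset.Icc 1 (4 * n₂ / 5)).biUnion fun s => (Finset.powersetCard s univ).biUnion fun T =>
        (Finset.powersetCard s univ).biUnion fun S => bad T S := by
    intro φ _
    obtain ⟨T, h1, h2⟩ := hcon φ
    obtain ⟨S, hS1, hS2⟩ := Finset.exists_superset_card_eq (n := T.card) h2.le (by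
      rw [Fintype.card_fin]; omega)
    simp only [Finset.mem_biUnion, Finset.mem_Icc, Finset.mem_powersetCard_univ]
    refine ⟨T.card, ⟨by omega, by omega⟩, T, rfl, S, hS2, ?_⟩
    simp only [hbad, Fintype.mem_piFinset]
    intro j a
    split_ifs with ha
    · exact hS1 (Finset.mem_biUnion.2 ⟨a, ha, Finset.mem_image_of_mem _ (Finset.mem_univ j)⟩)
    · exact Finset.mem_univ _
  have h1 : n₂ ^ (30 * n₁) ≤ ∑ s ∈ Finset.Icc 1 (4 * n₂ / 5),
      n₁.choose s * (n₂.choose s * (s ^ s * n₂ ^ (n₁ - s)) ^ 30) := by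
    have hu : (univ : Finset (Fin 30 → Fin n₁ → Fin n₂)).card = n₂ ^ (30 * n₁) := by
      rw [Finset.card_univ, Fintype.card_fun, Fintype.card_fun, Fintype.card_fin,
        Fintype.card_fin, Fintype.card_fin, ← pow_mul, mul_comm]
    rw [← hu]
    refine (Finset.card_le_card hcov).trans (Finset.card_biUnion_le.trans ?_)
    refine Finset.sum_le_sum fun s _ => ?_
    refine (Finset.card_biUnion_le_card_mul _ _
      (n₂.choose s * (s ^ s * n₂ ^ (n₁ - s)) ^ 30) ?_).trans ?_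
    · intro T hT
      rw [Finset.mem_powersetCard_univ] at hT
      refine (Finset.card_biUnion_le_card_mul _ _ ((s ^ s * n₂ ^ (n₁ - s)) ^ 30) ?_).trans ?_
      · intro S hS
        rw [Finset.mem_powersetCard_univ] at hS
        rw [hbad]
        simp only
        rw [EX_card, hT, hS]
      · rw [Finset.card_powersetCard, Finset.card_univ, Fintype.card_fin]
    · rw [Finset.card_powersetCard, Finset.card_univ, Fintype.card_fin]
  have h2 : ((n₂ : ℝ) ^ (30 * n₁)) ≤ ∑ s ∈ Finset.Icc 1 (4 * n₂ / 5),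
      (1 / 4 : ℝ) ^ s * (n₂ : ℝ) ^ (30 * n₁) := by
    have h1' : ((n₂ ^ (30 * n₁) : ℕ) : ℝ) ≤ ((∑ s ∈ Finset.Icc 1 (4 * n₂ / 5),
      n₁.choose s * (n₂.choose s * (s ^ s * n₂ ^ (n₁ - s)) ^ 30) : ℕ) : ℝ) := by
      exact_mod_cast h1
    push_cast at h1'
    refine h1'.trans (Finset.sum_le_sum fun s hs => ?_)
    rw [Finset.mem_Icc] at hs
    by_cases hsn : s ≤ n₁
    · have h3 := EX_real n₁ n₂ s hn h0 hs.1 (by omega)
      have h4 : (n₁.choose s : ℝ) * ((n₂.choose s : ℝ) * ((s : ℝ) ^ s * (n₂ : ℝ) ^ (n₁ - s)) ^ 30)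
          = ((n₁.choose s : ℝ) * (n₂.choose s : ℝ) * ((s : ℝ) ^ (30 * s))) *
            (n₂ : ℝ) ^ (30 * (n₁ - s)) := by
        rw [mul_pow, ← pow_mul, ← pow_mul, mul_comm s 30, mul_comm (n₁ - s) 30]
        ring
      rw [h4]
      have h5 : (n₂ : ℝ) ^ (30 * n₁) = (n₂ : ℝ) ^ (30 * s) * (n₂ : ℝ) ^ (30 * (n₁ - s)) := by
        rw [← pow_add]
        congr 1
        omega
      rw [h5, ← mul_assoc]
      gcongr
    · rw [Nat.choose_eq_zero_of_lt (by omega)]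
      simp only [Nat.cast_zero, zero_mul]
      positivity
  rw [← Finset.sum_mul] at h2
  have h3 : ∑ s ∈ Finset.Icc 1 (4 * n₂ / 5), (1 / 4 : ℝ) ^ s ≤ 1 / 2 := by
    have h4 : ∀ N : ℕ, ∑ s ∈ Finset.Icc 1 N, (1 / 4 : ℝ) ^ s ≤ 1 / 2 - (1 / 4) ^ N / 3 := by
      intro N
      induction N with
      | zero => norm_num
      | succ N ih =>
        rw [Finset.sum_Icc_succ_top (by omega), pow_succ]
        have : (0 : ℝ) < (1 / 4 : ℝ) ^ N := by positivity
        linarith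
    refine (h4 _).trans ?_
    have : (0 : ℝ) < (1 / 4 : ℝ) ^ (4 * n₂ / 5) := by positivity
    linarith
  have h4 : (0 : ℝ) < (n₂ : ℝ) ^ (30 * n₁) := by positivity
  nlinarith

end Pool.Agent.ABS
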