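import Pool.Agent.Lib_helper8.ABS.Defs

/-! The pieces of a gadget. -/

namespace Pool.Agent.ABS

open Finset Pool.Agent.SDN

theorem perm_of_count {α : Type*} [DecidableEq α] {l₁ l₂ : List α}
    (h : ∀ a, l₁.count a = l₂.count a) : l₁.Perm l₂ := List.perm_iff_count.2 h

/-- the pieces of a gadget -/
theorem gad_segs {V : Type*} [AddCommGroup V] (w : Fin 3 → V) (P : Par V) (k : Fin 3) :
    (∀ i, sg w P i + (sl w P k i).sum = se w P i) ∧
      ((List.ofFn (sl w P k)).flatten).Perm (co w P) ∧
      ((List.ofFn fun i => sg w P i :: vs (sg w P i) (sl w P k i)).flatten).Perm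
        (w k :: fv w P) ∧
      ∀ i, sg w P i ∈ fv w P ∧ se w P i ∈ fv w P := by
  classical
  refine ⟨?_, ?_, ?_, ?_⟩
  · intro i
    fin_cases k <;> fin_cases i <;> simp [sl, sg, se, ca, cb, c', d'] <;> abel
  · apply perm_of_count
    intro x
    fin_cases k <;>
      simp [sl, co, List.ofFn_succ, List.count_cons] <;> omega
  · have e1 : P.p + ca w P 0 = w 0 := by simp [ca]
    have e2 : P.p + ca w P 1 = w 1 := by simp [ca]
    have e3 : P.p + ca w P 2 = w 2 := by simp [ca]
    have f1 : w 0 + cb w P 0 = P.p + P.D := by simp [cb]; abel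
    have f2 : w 1 + cb w P 1 = P.p + P.D := by simp [cb]; abel
    have f3 : w 2 + cb w P 2 = P.p + P.D := by simp [cb]; abel
    have g1 : ∀ u i, u + ca w P i + cb w P i = u + P.D := by
      intro u i; simp only [ca, cb]; abel
    have h1 : P.q + ca w P 0 - P.c + P.c = P.q + ca w P 0 := by abel
    have h2 : P.q + ca w P 0 + c' w P = P.q + ca w P 1 + P.c := by simp [c', ca]; abel
    have h3 : P.q + ca w P 0 - P.c + c' w P = P.q + ca w P 1 := by simp [c', ca]; abel
    have h4 : P.r + ca w P 1 - P.d + P.d = P.r + ca w P 1 := by abel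
    have h5 : P.r + ca w P 1 + d' w P = P.r + ca w P 2 + P.d := by simp [d', ca]; abel
    have h6 : P.r + ca w P 1 - P.d + d' w P = P.r + ca w P 2 := by simp [d', ca]; abel
    apply perm_of_count
    intro x
    fin_cases k <;>
      simp [sl, sg, fv, vs, List.ofFn_succ, List.count_cons, e1, e2, e3, f1, f2, f3, g1, h2, h3,
        h5, h6] <;> omega
  · intro i
    fin_cases i <;> simp [sg, se, fv]

end Pool.Agent.ABS
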