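import Pool.Agent.Lib_helper8.ABS.Defs

/-! A chain of triples. -/

namespace Pool.Agent.ABS

open Finset

/-- a chain of triples replaces a choice among `d + 3` elements -/
theorem chain (d : ℕ) {α : Type*} (w : Fin (d + 3) → α) (hw : Function.Injective w) :
    ∃ ct : Fin (d + 1) → Fin 3 → α ⊕ Fin d, (∀ t, Function.Injective (ct t)) ∧
      (∀ t i a, ct t i = Sum.inl a → ∃ j, w j = a) ∧
      ∀ j, ∃ c : Fin (d + 1) → Fin 3, Function.Injective (fun t => ct t (c t)) ∧
        ∀ t a, ct t (c t) = Sum.inl a → a = w j := by
  set L : Fin (d + 1) → α ⊕ Fin d := fun t =>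
    if h : t.val = 0 then Sum.inl (w ⟨0, by omega⟩) else
      Sum.inr ⟨t.val - 1, by have := t.2; omega⟩ with hL
  set M : Fin (d + 1) → α ⊕ Fin d := fun t => Sum.inl (w ⟨t.val + 1, by have := t.2; omega⟩) with hM
  set R : Fin (d + 1) → α ⊕ Fin d := fun t =>
    if h : t.val = d then Sum.inl (w ⟨d + 2, by omega⟩) else
      Sum.inr ⟨t.val, by have := t.2; omega⟩ with hR
  have hLM : ∀ t, L t ≠ M t := by
    intro t h
    simp only [hL, hM] at h
    split_ifs at h with h1
    have := hw (Sum.inl.inj h)
    rw [Fin.mk.injEq] at this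
    omega
  have hLR : ∀ t, L t ≠ R t := by
    intro t h
    simp only [hL, hR] at h
    split_ifs at h with h1 h2 h3
    · have := hw (Sum.inl.inj h)
      rw [Fin.mk.injEq] at this
      omega
    · have := Sum.inr.inj h
      rw [Fin.mk.injEq] at this
      omega
  have hMR : ∀ t, M t ≠ R t := by
    intro t h
    simp only [hM, hR] at h
    split_ifs at h with h1
    have := hw (Sum.inl.inj h)
    rw [Fin.mk.injEq] at this
    omega
  refine ⟨fun t => ![L t, M t, R t], ?_, ?_, ?_⟩
  · intro t a b hab
    fin_cases a <;> fin_cases b <;> simp at hab ⊢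
    · exact hLM t hab
    · exact hLR t hab
    · exact hLM t hab.symm
    · exact hMR t hab
    · exact hLR t hab.symm
    · exact hMR t hab.symm
  · intro t i a
    fin_cases i <;> simp [hL, hM, hR]
    · split_ifs
      · intro h; exact ⟨_, Sum.inl.inj h⟩
      · intro h; cases h
    · intro h; exact ⟨_, h⟩
    · split_ifs
      · intro h; exact ⟨_, Sum.inl.inj h⟩
      · intro h; cases h
  · intro j
    have hRi : ∀ t a, R t = Sum.inl a → t.val = d ∧ a = w ⟨d + 2, by omega⟩ := by
      intro t a h
      simp only [hR] at h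
      split_ifs at h with h1
      exact ⟨h1, (Sum.inl.inj h).symm⟩
    have hRr : ∀ t k, R t = Sum.inr k → k.val = t.val := by
      intro t k h
      simp only [hR] at h
      split_ifs at h with h1
      rw [← Sum.inr.inj h]
    have hLi : ∀ t a, L t = Sum.inl a → t.val = 0 ∧ a = w ⟨0, by omega⟩ := by
      intro t a h
      simp only [hL] at h
      split_ifs at h with h1
      exact ⟨h1, (Sum.inl.inj h).symm⟩
    have hLr : ∀ t k, L t = Sum.inr k → k.val + 1 = t.val := by
      intro t k h
      simp only [hL] at h
      split_ifs at h with h1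
      rw [← Sum.inr.inj h]
      simp only
      omega
    have hMi : ∀ t a, M t = Sum.inl a → a = w ⟨t.val + 1, by have := t.2; omega⟩ := by
      intro t a h
      simp only [hM] at h
      exact (Sum.inl.inj h).symm
    set v : Fin (d + 1) → α ⊕ Fin d := fun t =>
      if t.val + 1 < j.val then R t else if t.val + 1 = j.val then M t else L t with hv
    have hvc : ∀ t, (![L t, M t, R t] : Fin 3 → α ⊕ Fin d)
        (if t.val + 1 < j.val then 2 else if t.val + 1 = j.val then 1 else 0) = v t := by
      intro t
      simp only [hv]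
      split_ifs <;> rfl
    have hvi : ∀ t a, v t = Sum.inl a → (t.val + 1 = j.val ∨ (t.val = 0 ∧ j.val = 0) ∨
        (t.val = d ∧ j.val = d + 2)) ∧ a = w j := by
      intro t a h
      have ht := t.2
      have hj := j.2
      simp only [hv] at h
      split_ifs at h with h1 h2
      · obtain ⟨h3, h4⟩ := hRi t a h
        have h5 : j.val = d + 2 := by omega
        exact ⟨Or.inr (Or.inr ⟨h3, h5⟩), h4.trans (congrArg w (Fin.ext h5.symm))⟩
      · exact ⟨Or.inl h2, (hMi t a h).trans (congrArg w (Fin.ext h2))⟩
      · obtain ⟨h3, h4⟩ := hLi t a h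
        have h5 : j.val = 0 := by omega
        exact ⟨Or.inr (Or.inl ⟨h3, h5⟩), h4.trans (congrArg w (Fin.ext h5.symm))⟩
    have hvr : ∀ t k, v t = Sum.inr k → (t.val + 1 < j.val ∧ k.val = t.val) ∨
        (j.val < t.val + 1 ∧ k.val + 1 = t.val) := by
      intro t k h
      simp only [hv] at h
      split_ifs at h with h1 h2
      · exact Or.inl ⟨h1, hRr t k h⟩
      · exact Or.inr ⟨by omega, hLr t k h⟩
    refine ⟨fun t => if t.val + 1 < j.val then 2 else if t.val + 1 = j.val then 1 else 0, ?_, ?_⟩
    · intro t t' h
      simp only [hvc] at h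
      have ht := t.2
      have ht' := t'.2
      have hj := j.2
      apply Fin.ext
      rcases h1 : v t' with a | k
      · have h2 := (hvi t a (h.trans h1)).1
        have h3 := (hvi t' a h1).1
        omega
      · have h2 := hvr t k (h.trans h1)
        have h3 := hvr t' k h1
        omega
    · intro t a h
      simp only [hvc] at h
      exact (hvi t a h).2

end Pool.Agent.ABS
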