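import Pool.Agent.Lib_helper8.ABS.TE
import Pool.Agent.Lib_helper8.ABS.RC

/-! Block RT (project ABS): the choice system of triples. -/

namespace Pool.Agent.ABS

open Finset

/-- the elements of the chain of `z` as elements of the whole system -/
def RT_m {h : ℕ} {Z : Type} (d : Z → ℕ) (z : Z) :
    (Fin (2 * h) ⊕ Fin (2 * h)) ⊕ Fin (d z) → Fin (2 * h) ⊕ (Fin (2 * h) ⊕ (Σ z, Fin (d z)))
  | Sum.inl (Sum.inl x) => Sum.inl x
  | Sum.inl (Sum.inr y) => Sum.inr (Sum.inl y)
  | Sum.inr t => Sum.inr (Sum.inr ⟨z, t⟩)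

theorem RT_m_inj {h : ℕ} {Z : Type} (d : Z → ℕ) (z : Z) :
    Function.Injective (RT_m (h := h) d z) := by
  rintro ((a | a) | a) ((b | b) | b) hab <;> simp only [RT_m] at hab
  · rw [Sum.inl.inj hab]
  · exact absurd hab (by simp)
  · exact absurd hab (by simp)
  · exact absurd hab (by simp)
  · rw [Sum.inl.inj (Sum.inr.inj hab)]
  · exact absurd (Sum.inr.inj hab) (by simp)
  · exact absurd hab (by simp)
  · exact absurd (Sum.inr.inj hab) (by simp)
  · have h1 := Sum.inr.inj (Sum.inr.inj hab)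
    have h2 := eq_of_heq (Sigma.mk.inj h1).2
    rw [h2]

theorem RT_m_cases {h : ℕ} {Z : Type} (d : Z → ℕ) {z z' : Z}
    {A : (Fin (2 * h) ⊕ Fin (2 * h)) ⊕ Fin (d z)} {B : (Fin (2 * h) ⊕ Fin (2 * h)) ⊕ Fin (d z')}
    (hAB : RT_m (h := h) d z A = RT_m (h := h) d z' B) :
    (∃ a, A = Sum.inl a ∧ B = Sum.inl a) ∨ z = z' := by
  rcases A with ((a | a) | a) <;> rcases B with ((b | b) | b) <;> simp only [RT_m] at hAB
  · left; exact ⟨Sum.inl a, rfl, by rw [Sum.inl.inj hAB]⟩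
  · exact absurd hAB (by simp)
  · exact absurd hAB (by simp)
  · exact absurd hAB (by simp)
  · left; exact ⟨Sum.inr a, rfl, by rw [Sum.inl.inj (Sum.inr.inj hAB)]⟩
  · exact absurd (Sum.inr.inj hAB) (by simp)
  · exact absurd hAB (by simp)
  · exact absurd (Sum.inr.inj hAB) (by simp)
  · right
    exact (Sigma.mk.inj (Sum.inr.inj (Sum.inr.inj hAB))).1

/-- choice system of triples -/
theorem triples : ∀ h : ℕ, 2 ≤ h →
    ∃ (ι κ : Type) (_ : Fintype ι) (_ : Fintype κ) (tr : ι → Fin 3 → Fin (2 * h) ⊕ κ),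
      Fintype.card κ ≤ 302 * h ∧ Fintype.card ι = h + Fintype.card κ ∧
      (∀ z, Function.Injective (tr z)) ∧
      ∀ X' : Finset (Fin (2 * h)), X'.card = h → ∃ c : ι → Fin 3,
        Function.Injective (fun z => tr z (c z)) ∧
          ∀ z x, tr z (c z) = Sum.inl x → x ∈ X' := by
  intro h hh
  classical
  obtain ⟨nb, hnb3, hsum, hX⟩ := template h hh
  obtain ⟨d, hd⟩ : ∃ d : Fin (3 * h) → ℕ, ∀ z, (nb z).card = d z + 3 :=
    ⟨fun z => (nb z).card - 3, fun z => (Nat.sub_add_cancel (hnb3 z)).symm⟩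
  obtain ⟨w, hwinj, hwsurj⟩ : ∃ w : (z : Fin (3 * h)) → Fin (d z + 3) → Fin (2 * h) ⊕ Fin (2 * h),
      (∀ z, Function.Injective (w z)) ∧ ∀ z, ∀ a ∈ nb z, ∃ j, w z j = a := by
    refine ⟨fun z j => (((nb z).equivFinOfCardEq (hd z)).symm j : Fin (2 * h) ⊕ Fin (2 * h)),
      fun z => ?_, fun z a ha => ?_⟩
    · exact Subtype.val_injective.comp (Equiv.injective _)
    · exact ⟨(nb z).equivFinOfCardEq (hd z) ⟨a, ha⟩, by simp⟩
  have hch := fun z => chain (d z) (w z) (hwinj z)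
  choose ct hct1 hct2 hct3 using hch
  refine ⟨Σ z : Fin (3 * h), Fin (d z + 1), Fin (2 * h) ⊕ (Σ z : Fin (3 * h), Fin (d z)),
    inferInstance, inferInstance, fun p i => RT_m (h := h) d p.1 (ct p.1 p.2 i), ?_, ?_, ?_, ?_⟩
  · have h1 : ∑ z, d z ≤ ∑ z, (nb z).card :=
      Finset.sum_le_sum fun z _ => by rw [hd z]; omega
    simp only [Fintype.card_sum, Fintype.card_fin, Fintype.card_sigma]
    omega
  · simp only [Fintype.card_sum, Fintype.card_fin, Fintype.card_sigma, Finset.sum_add_distrib,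
      Finset.sum_const, Finset.card_univ, smul_eq_mul, mul_one]
    omega
  · intro p
    exact (RT_m_inj d p.1).comp (hct1 p.1 p.2)
  · intro X' hX'
    obtain ⟨σ, hσinj, hσ⟩ := hX X' hX'
    choose j hj using fun z => hwsurj z (σ z) (hσ z).1
    choose c hc1 hc2 using fun z => hct3 z (j z)
    refine ⟨fun p => c p.1 p.2, ?_, ?_⟩
    · rintro ⟨z, t⟩ ⟨z', t'⟩ hzt
      have hzz : z = z' := by
        rcases RT_m_cases d hzt with ⟨a, hA, hB⟩ | h1
        · have e1 := hc2 z t a hA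
          have e2 := hc2 z' t' a hB
          rw [hj] at e1 e2
          exact hσinj (e1.symm.trans e2)
        · exact h1
      subst hzz
      have h2 := RT_m_inj d z hzt
      have h3 : t = t' := hc1 z h2
      rw [h3]
    · rintro ⟨z, t⟩ x hx
      have h1 : ct z t (c z t) = Sum.inl (Sum.inl x) := by
        apply RT_m_inj (h := h) d z
        exact hx
      have h2 := hc2 z t _ h1
      rw [hj] at h2
      exact (hσ z).2 x h2.symm

end Pool.Agent.ABS
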