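import Pool.Agent.Lib_helper26.SDN.VX
import Pool.Agent.Lib_helper8.ABS.RT
import Pool.Agent.Lib_helper8.ABS.EM
import Pool.Agent.Lib_helper8.ABS.GV

/-! The vertex absorber. -/

namespace Pool.Agent.ABS

open Finset Pool.Agent.SDN

theorem ofFn_flatten_coe {α : Type*} : ∀ {n : ℕ} (l : Fin n → List α),
    (((List.ofFn l).flatten : List α) : Multiset α) = ∑ i, (l i : Multiset α)
  | 0, _ => by simp
  | n + 1, l => by
    rw [List.ofFn_succ, List.flatten_cons, Fin.sum_univ_succ, ← ofFn_flatten_coe,
      Multiset.coe_add]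

theorem ofFn_flatten_equiv {α ι : Type*} [Fintype ι] {n : ℕ} (e : Fin n ≃ ι)
    (l : ι → List α) :
    (((List.ofFn fun i => l (e i)).flatten : List α) : Multiset α) = ∑ z, (l z : Multiset α) := by
  rw [ofFn_flatten_coe]
  exact Equiv.sum_comp e fun z => (l z : Multiset α)

theorem sum_count {α ι : Type*} [DecidableEq α] [Fintype ι] (f : ι → List α)
    (h1 : ∀ z, (f z).Nodup) (h2 : ∀ z z', z ≠ z' → List.Disjoint (f z) (f z')) (T : Finset α)
    (hT : ∀ a, a ∈ T ↔ ∃ z, a ∈ f z) : ∑ z, (f z : Multiset α) = T.val := by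
  classical
  ext a
  rw [Multiset.count_sum']
  by_cases ha : a ∈ T
  · obtain ⟨z, hz⟩ := (hT a).1 ha
    rw [Finset.sum_eq_single z, Multiset.coe_count, List.count_eq_one_of_mem (h1 z) hz,
      Multiset.count_eq_one_of_mem T.nodup ha]
    · intro z' _ hzz
      rw [Multiset.coe_count, List.count_eq_zero]
      exact fun h => h2 z' z hzz h hz
    · intro h
      exact absurd (Finset.mem_univ z) h
  · rw [Multiset.count_eq_zero_of_notMem ha]
    apply Finset.sum_eq_zero
    intro z _
    rw [Multiset.coe_count, List.count_eq_zero]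
    exact fun h => ha ((hT a).2 ⟨z, h⟩)

theorem sg_get {V : Type*} [AddCommGroup V] (w : Fin 3 → V) (P : Par V) (i : Fin 5) :
    sg w P i = (fv w P).get ((![0, 2, 4, 10, 12] : Fin 5 → Fin 14) i) := by
  fin_cases i <;> rfl

theorem se_get {V : Type*} [AddCommGroup V] (w : Fin 3 → V) (P : Par V) (i : Fin 5) :
    se w P i = (fv w P).get ((![1, 3, 5, 11, 13] : Fin 5 → Fin 14) i) := by
  fin_cases i <;> rfl

theorem idx1 : ∀ i j : Fin 5, (![0, 2, 4, 10, 12] : Fin 5 → Fin 14) i =
    (![0, 2, 4, 10, 12] : Fin 5 → Fin 14) j → i = j := by decide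

theorem idx2 : ∀ i j : Fin 5, (![1, 3, 5, 11, 13] : Fin 5 → Fin 14) i =
    (![1, 3, 5, 11, 13] : Fin 5 → Fin 14) j → i = j := by decide

theorem idx3 : ∀ i j : Fin 5, (![0, 2, 4, 10, 12] : Fin 5 → Fin 14) i ≠
    (![1, 3, 5, 11, 13] : Fin 5 → Fin 14) j := by decide

theorem sg_inj {V : Type*} [AddCommGroup V] {w : Fin 3 → V} {P : Par V} (h : (fv w P).Nodup) :
    Function.Injective (sg w P) := by
  intro i j hij
  rw [sg_get, sg_get] at hij
  exact idx1 i j (List.nodup_iff_injective_get.1 h hij)

theorem se_inj {V : Type*} [AddCommGroup V] {w : Fin 3 → V} {P : Par V} (h : (fv w P).Nodup) :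
    Function.Injective (se w P) := by
  intro i j hij
  rw [se_get, se_get] at hij
  exact idx2 i j (List.nodup_iff_injective_get.1 h hij)

theorem sg_ne_se {V : Type*} [AddCommGroup V] {w : Fin 3 → V} {P : Par V}
    (h : (fv w P).Nodup) (i j : Fin 5) : sg w P i ≠ se w P j := by
  intro hij
  rw [sg_get, se_get] at hij
  exact idx3 i j (List.nodup_iff_injective_get.1 h hij)

open Classical in
/-- **Vertex absorber.** -/
theorem absorber : ∃ C₁ : ℕ, 1 ≤ C₁ ∧ ∀ {G : Type} [AddCommGroup G] [Fintype G] (h : ℕ)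
    (W C V : Finset G), 10 ≤ h → W.card = 2 * h → W ⊆ V → C₁ * h ≤ Fintype.card G →
    200 * C.card ≤ Fintype.card G → 200 * V.card ≤ Fintype.card G →
    ∃ (q : ℕ) (p e : Fin q → G) (D Q : Finset G), q ≤ C₁ * h ∧ D.card ≤ C₁ * h ∧
      Q.card ≤ C₁ * h ∧ Disjoint D C ∧ Disjoint Q V ∧ Function.Injective p ∧
      Function.Injective e ∧ (∀ i j, p i ≠ e j) ∧ (∀ i, p i ∈ Q ∧ e i ∈ Q) ∧
      Q.card + h = D.card + q ∧
      ∀ W' ⊆ W, W'.card = h → ∃ l : Fin q → List G, (∀ i, p i + (l i).sum = e i) ∧
        (List.ofFn l).flatten.Perm D.toList ∧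
        ((List.ofFn fun i => p i :: vs (p i) (l i)).flatten).Perm (Q ∪ W').toList := by
  refine ⟨100000, by norm_num, ?_⟩
  intro G _ _ h W C V h10 hWc hWV hCh hC hV
  obtain ⟨ι, κ, _, _, tr, hκ, hι, htr, hch⟩ := triples h (by omega)
  -- enumeration of `W`
  set xv : Fin (2 * h) → G := fun i => ((Finset.equivFinOfCardEq hWc).symm i : G) with hxv
  have hxi : Function.Injective xv := fun a b hab =>
    (Finset.equivFinOfCardEq hWc).symm.injective (Subtype.ext hab)
  have hxW : ∀ i, xv i ∈ W := fun i => ((Finset.equivFinOfCardEq hWc).symm i).2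
  have hxs : ∀ a ∈ W, ∃ i, xv i = a := fun a ha =>
    ⟨Finset.equivFinOfCardEq hWc ⟨a, ha⟩, by simp [hxv]⟩
  have hins : (insert 0 C).card ≤ C.card + 1 := Finset.card_insert_le _ _
  obtain ⟨yv, P, hyi, hyV, hG, hfy, hfd, hcd⟩ := embed V (insert 0 C) xv hxi
    (fun i => hWV (hxW i)) (Finset.mem_insert_self _ _) tr htr (by omega)
  set w : ι → Fin 3 → G := fun z i => Sum.elim xv yv (tr z i) with hw
  have hinj : Function.Injective (Sum.elim xv yv) := by
    rw [Sum.elim_injective]
    exact ⟨hxi, hyi, fun a b hab => hyV b (hab ▸ hWV (hxW a))⟩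
  have hwi : ∀ z, Function.Injective (w z) := fun z => hinj.comp (htr z)
  set q := Fintype.card (ι × Fin 5) with hq
  have hq5 : q = 5 * Fintype.card ι := by
    rw [hq, Fintype.card_prod, Fintype.card_fin, mul_comm]
  set ε : Fin q ≃ ι × Fin 5 := (Fintype.equivFin (ι × Fin 5)).symm with hε
  set D : Finset G := univ.biUnion fun z => (co (w z) (P z)).toFinset with hD
  set Q : Finset G := univ.image yv ∪ univ.biUnion fun z => (fv (w z) (P z)).toFinset with hQ
  have hmQ : ∀ a, a ∈ Q ↔ (∃ k, yv k = a) ∨ ∃ z, a ∈ fv (w z) (P z) := by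
    intro a
    simp [hQ]
  have hmD : ∀ a, a ∈ D ↔ ∃ z, a ∈ co (w z) (P z) := by
    intro a
    simp [hD]
  have hDsum : ∑ z, (co (w z) (P z) : Multiset G) = D.val :=
    sum_count _ (fun z => (hG z).cnd) (fun z z' hz => hcd z z' hz) D hmD
  have hDcard : D.card = 10 * Fintype.card ι := by
    have := congrArg Multiset.card hDsum
    rw [Multiset.card_sum] at this
    simp only [Multiset.coe_card, co_length, Finset.sum_const, Finset.card_univ,
      smul_eq_mul] at this
    rw [← Finset.card_val]
    omega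
  have hQV : Disjoint Q V := by
    rw [Finset.disjoint_left]
    intro a ha haV
    rcases (hmQ a).1 ha with ⟨k, rfl⟩ | ⟨z, hz⟩
    · exact hyV k haV
    · exact (hG z).out a hz haV
  set p : Fin q → G := fun i => sg (w (ε i).1) (P (ε i).1) (ε i).2 with hp
  set e : Fin q → G := fun i => se (w (ε i).1) (P (ε i).1) (ε i).2 with he
  have hpf : ∀ i, p i ∈ fv (w (ε i).1) (P (ε i).1) := fun i =>
    ((gad_segs (w (ε i).1) (P (ε i).1) 0).2.2.2 (ε i).2).1
  have hef : ∀ i, e i ∈ fv (w (ε i).1) (P (ε i).1) := fun i =>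
    ((gad_segs (w (ε i).1) (P (ε i).1) 0).2.2.2 (ε i).2).2
  -- the main property
  have main : ∀ W' ⊆ W, W'.card = h → ∃ l : Fin q → List G, (∀ i, p i + (l i).sum = e i) ∧
        (List.ofFn l).flatten.Perm D.toList ∧
        ((List.ofFn fun i => p i :: vs (p i) (l i)).flatten).Perm (Q ∪ W').toList := by
    intro W' hW' hW'c
    set X' : Finset (Fin (2 * h)) := univ.filter fun i => xv i ∈ W' with hX'
    have hX'i : X'.image xv = W' := by
      ext a
      simp only [hX', Finset.mem_image, Finset.mem_filter, Finset.mem_univ, true_and]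
      constructor
      · rintro ⟨i, hi, rfl⟩
        exact hi
      · intro ha
        obtain ⟨i, rfl⟩ := hxs a (hW' ha)
        exact ⟨i, ha, rfl⟩
    have hX'c : X'.card = h := by
      have h1 := Finset.card_image_of_injective X' hxi
      rw [hX'i, hW'c] at h1
      exact h1.symm
    obtain ⟨c, hc1, hc2⟩ := hch X' hX'c
    -- the chosen elements
    have hsurj : ∀ t ∈ X'.disjSum (univ : Finset κ), ∃ z, tr z (c z) = t := by
      have h1 : (univ.image fun z => tr z (c z)) ⊆ X'.disjSum (univ : Finset κ) := by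
        intro t ht
        obtain ⟨z, -, rfl⟩ := Finset.mem_image.1 ht
        rcases hz : tr z (c z) with x | k
        · rw [Finset.inl_mem_disjSum]
          exact hc2 z x hz
        · rw [Finset.inr_mem_disjSum]
          exact Finset.mem_univ k
      have h2 : (univ.image fun z => tr z (c z)) = X'.disjSum (univ : Finset κ) := by
        apply Finset.eq_of_subset_of_card_le h1
        rw [Finset.card_disjSum, Finset.card_image_of_injective _ hc1, Finset.card_univ,
          Finset.card_univ, hX'c, hι]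
      intro t ht
      rw [← h2] at ht
      obtain ⟨z, -, hz⟩ := Finset.mem_image.1 ht
      exact ⟨z, hz⟩
    have hwc : ∀ z, w z (c z) = Sum.elim xv yv (tr z (c z)) := fun z => rfl
    -- vertices
    have hVsum : ∑ z, ((w z (c z) :: fv (w z) (P z) : List G) : Multiset G) =
        (Q ∪ W').val := by
      have hnf : ∀ z z', w z (c z) ∉ fv (w z') (P z') := by
        intro z z' hz
        rw [hwc] at hz
        rcases ht : tr z (c z) with x | k
        · rw [ht] at hz
          exact (hG z').out _ hz (hWV (hxW x))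
        · rw [ht] at hz
          exact hfy z' _ hz k rfl
      apply sum_count
      · intro z
        exact List.nodup_cons.2 ⟨hnf z z, (hG z).nd⟩
      · intro z z' hzz
        rw [List.disjoint_cons_left]
        refine ⟨?_, ?_⟩
        · rw [List.mem_cons, not_or]
          refine ⟨?_, hnf z z'⟩
          intro h
          exact hzz (hc1 (hinj h))
        · rw [List.disjoint_cons_right]
          exact ⟨hnf z' z, hfd z z' hzz⟩
      · intro a
        rw [Finset.mem_union, hmQ]
        constructor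
        · rintro ((⟨k, rfl⟩ | ⟨z, hz⟩) | ha)
          · obtain ⟨z, hz⟩ := hsurj (Sum.inr k) (by simp)
            exact ⟨z, by rw [List.mem_cons, hwc, hz]; exact Or.inl rfl⟩
          · exact ⟨z, List.mem_cons_of_mem _ hz⟩
          · rw [← hX'i] at ha
            obtain ⟨x, hx, rfl⟩ := Finset.mem_image.1 ha
            obtain ⟨z, hz⟩ := hsurj (Sum.inl x) (by simp [hx])
            exact ⟨z, by rw [List.mem_cons, hwc, hz]; exact Or.inl rfl⟩
        · rintro ⟨z, hz⟩
          rcases List.mem_cons.1 hz with rfl | hz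
          · rw [hwc]
            rcases ht : tr z (c z) with x | k
            · right
              rw [← hX'i]
              exact Finset.mem_image_of_mem _ (hc2 z x ht)
            · exact Or.inl (Or.inl ⟨k, rfl⟩)
          · exact Or.inl (Or.inr ⟨z, hz⟩)
    refine ⟨fun i => sl (w (ε i).1) (P (ε i).1) (c (ε i).1) (ε i).2, ?_, ?_, ?_⟩
    · intro i
      exact (gad_segs (w (ε i).1) (P (ε i).1) (c (ε i).1)).1 (ε i).2
    · rw [← Multiset.coe_eq_coe, Finset.coe_toList, ← hDsum,
        ofFn_flatten_equiv ε fun t => sl (w t.1) (P t.1) (c t.1) t.2, Fintype.sum_prod_type]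
      refine Finset.sum_congr rfl fun z _ => ?_
      rw [← Multiset.coe_eq_coe.2 (gad_segs (w z) (P z) (c z)).2.1, ofFn_flatten_coe]
    · rw [← Multiset.coe_eq_coe, Finset.coe_toList, ← hVsum,
        ofFn_flatten_equiv ε fun t => sg (w t.1) (P t.1) t.2 ::
          vs (sg (w t.1) (P t.1) t.2) (sl (w t.1) (P t.1) (c t.1) t.2), Fintype.sum_prod_type]
      refine Finset.sum_congr rfl fun z _ => ?_
      rw [← Multiset.coe_eq_coe.2 (gad_segs (w z) (P z) (c z)).2.2.1, ofFn_flatten_coe]
  have hQc : Q.card + h = D.card + q := by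
    obtain ⟨W', hW', hW'c⟩ := Finset.exists_subset_card_eq (s := W) (n := h) (by omega)
    obtain ⟨l, hl1, hl2, hl3⟩ := main W' hW' hW'c
    have e1 := hl3.length_eq
    have e2 := hl2.length_eq
    have e3 : (Q ∪ W').card = Q.card + h := by
      rw [Finset.card_union_of_disjoint, hW'c]
      exact Disjoint.mono_right (hW'.trans hWV) hQV
    rw [Finset.length_toList, e3, List.length_flatten, List.map_ofFn, List.sum_ofFn] at e1
    rw [Finset.length_toList, List.length_flatten, List.map_ofFn, List.sum_ofFn] at e2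
    have e4 : ∀ i : Fin q, (List.length ∘ fun i => p i :: vs (p i) (l i)) i =
        (List.length ∘ l) i + 1 := by
      intro i
      simp [SDN.vs_length]
    rw [Finset.sum_congr rfl fun i _ => e4 i, Finset.sum_add_distrib, e2] at e1
    simpa using e1.symm
  refine ⟨q, p, e, D, Q, by omega, by omega, by omega, ?_, hQV, ?_, ?_, ?_, ?_, hQc, main⟩
  · rw [Finset.disjoint_left]
    intro a ha haC
    obtain ⟨z, hz⟩ := (hmD a).1 ha
    exact (hG z).cmem a hz (Finset.mem_insert_of_mem haC)
  · intro i j hij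
    by_cases hz : (ε i).1 = (ε j).1
    · have h1 : sg (w (ε i).1) (P (ε i).1) (ε i).2 = sg (w (ε i).1) (P (ε i).1) (ε j).2 := by
        have := hij
        simp only [hp] at this
        rw [this, hz]
      have h2 := sg_inj (hG (ε i).1).nd h1
      exact ε.injective (Prod.ext hz h2)
    · exact absurd (hpf j) (fun h => hfd _ _ hz (hpf i) (hij ▸ h))
  · intro i j hij
    by_cases hz : (ε i).1 = (ε j).1
    · have h1 : se (w (ε i).1) (P (ε i).1) (ε i).2 = se (w (ε i).1) (P (ε i).1) (ε j).2 := by
        have := hij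
        simp only [he] at this
        rw [this, hz]
      have h2 := se_inj (hG (ε i).1).nd h1
      exact ε.injective (Prod.ext hz h2)
    · exact absurd (hef j) (fun h => hfd _ _ hz (hef i) (hij ▸ h))
  · intro i j hij
    by_cases hz : (ε i).1 = (ε j).1
    · have h1 : sg (w (ε i).1) (P (ε i).1) (ε i).2 = se (w (ε i).1) (P (ε i).1) (ε j).2 := by
        have := hij
        simp only [hp, he] at this
        rw [this, hz]
      exact sg_ne_se (hG (ε i).1).nd _ _ h1
    · exact absurd (hef j) (fun h => hfd _ _ hz (hpf i) (hij ▸ h))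
  · intro i
    exact ⟨(hmQ _).2 (Or.inr ⟨_, hpf i⟩), (hmQ _).2 (Or.inr ⟨_, hef i⟩)⟩

end Pool.Agent.ABS
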