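import Pool.Agent.Lib_helper8.ABS.SW

/-! Block GA (project ABS), helper73: existence of a gadget. -/

namespace Pool.Agent.ABS

open Finset

variable {V : Type*} [AddCommGroup V] [Fintype V]

omit [AddCommGroup V] in
/-- avoiding a small set -/
theorem GA_avoid (B : Finset V) (h : B.card < Fintype.card V) : ∃ x : V, x ∉ B := by
  by_contra! H
  have : B = univ := eq_univ_iff_forall.2 H
  rw [this, card_univ] at h
  exact lt_irrefl _ h

theorem GA_p (U FC : Finset V) (w : Fin 3 → V)
    (hc : U.card + 3 * FC.card < Fintype.card V) :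
    ∃ p : V, p ∉ U ∧ ∀ i, w i - p ∉ FC := by
  classical
  obtain ⟨p, hp⟩ := GA_avoid (U ∪ ((FC.image fun x => w 0 - x) ∪ ((FC.image fun x => w 1 - x) ∪
    FC.image fun x => w 2 - x))) (by
      refine lt_of_le_of_lt ?_ hc
      refine (card_union_le _ _).trans ?_
      have h1 : (FC.image fun x => w 0 - x).card ≤ FC.card := card_image_le
      have h2 : (FC.image fun x => w 1 - x).card ≤ FC.card := card_image_le
      have h3 : (FC.image fun x => w 2 - x).card ≤ FC.card := card_image_le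
      have h4 := card_union_le (FC.image fun x => w 0 - x) ((FC.image fun x => w 1 - x) ∪
        FC.image fun x => w 2 - x)
      have h5 := card_union_le (FC.image fun x => w 1 - x) (FC.image fun x => w 2 - x)
      omega)
  simp only [mem_union, not_or] at hp
  obtain ⟨h0, h1, h2, h3⟩ := hp
  refine ⟨p, h0, fun i hi => ?_⟩
  fin_cases i
  · exact h1 (mem_image.2 ⟨_, hi, by simp⟩)
  · exact h2 (mem_image.2 ⟨_, hi, by simp⟩)
  · exact h3 (mem_image.2 ⟨_, hi, by simp⟩)

theorem GA_D (U FC : Finset V) (a : Fin 3 → V) (p : V)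
    (hc : U.card + 3 * FC.card + 10 < Fintype.card V) :
    ∃ D : V, D ≠ 0 ∧ p + D ∉ U ∧ (∀ i, D - a i ∉ FC) ∧ ∀ i j, D ≠ a i + a j := by
  classical
  obtain ⟨D, hD⟩ := GA_avoid ((U.image fun x => x - p) ∪ ((FC.image fun x => x + a 0) ∪
    ((FC.image fun x => x + a 1) ∪ ((FC.image fun x => x + a 2) ∪
      ({0} ∪ univ.image fun q : Fin 3 × Fin 3 => a q.1 + a q.2))))) (by
      refine lt_of_le_of_lt ?_ hc
      have h0 : (U.image fun x => x - p).card ≤ U.card := card_image_le
      have h1 : (FC.image fun x => x + a 0).card ≤ FC.card := card_image_le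
      have h2 : (FC.image fun x => x + a 1).card ≤ FC.card := card_image_le
      have h3 : (FC.image fun x => x + a 2).card ≤ FC.card := card_image_le
      have h4 : (univ.image fun q : Fin 3 × Fin 3 => a q.1 + a q.2).card ≤ 9 := by
        refine card_image_le.trans ?_
        simp
      refine (card_union_le _ _).trans ?_
      have h5 := card_union_le (FC.image fun x => x + a 0) ((FC.image fun x => x + a 1) ∪
        ((FC.image fun x => x + a 2) ∪ ({0} ∪ univ.image fun q : Fin 3 × Fin 3 => a q.1 + a q.2)))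
      have h6 := card_union_le (FC.image fun x => x + a 1)
        ((FC.image fun x => x + a 2) ∪ ({0} ∪ univ.image fun q : Fin 3 × Fin 3 => a q.1 + a q.2))
      have h7 := card_union_le (FC.image fun x => x + a 2)
        ({0} ∪ univ.image fun q : Fin 3 × Fin 3 => a q.1 + a q.2)
      have h8 := card_union_le {(0:V)} (univ.image fun q : Fin 3 × Fin 3 => a q.1 + a q.2)
      rw [card_singleton] at h8
      omega)
  simp only [mem_union, not_or, mem_singleton] at hD
  obtain ⟨h0, h1, h2, h3, h4, h5⟩ := hD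
  refine ⟨D, h4, fun h => h0 (mem_image.2 ⟨_, h, by abel⟩), fun i hi => ?_, fun i j h => ?_⟩
  · fin_cases i
    · exact h1 (mem_image.2 ⟨_, hi, by simp⟩)
    · exact h2 (mem_image.2 ⟨_, hi, by simp⟩)
    · exact h3 (mem_image.2 ⟨_, hi, by simp⟩)
  · exact h5 (mem_image.2 ⟨(i, j), mem_univ _, h.symm⟩)

/-- four translates outside of a set -/
theorem GA_q (U : Finset V) (x y z : V) (hc : 4 * U.card < Fintype.card V) :
    ∃ q : V, q ∉ U ∧ q + x ∉ U ∧ q + y ∉ U ∧ q + z ∉ U := by
  classical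
  obtain ⟨q, hq⟩ := GA_avoid (U ∪ ((U.image fun u => u - x) ∪ ((U.image fun u => u - y) ∪
    U.image fun u => u - z))) (by
      refine lt_of_le_of_lt ?_ hc
      have h1 : (U.image fun u => u - x).card ≤ U.card := card_image_le
      have h2 : (U.image fun u => u - y).card ≤ U.card := card_image_le
      have h3 : (U.image fun u => u - z).card ≤ U.card := card_image_le
      refine (card_union_le _ _).trans ?_
      have h4 := card_union_le (U.image fun u => u - x) ((U.image fun u => u - y) ∪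
        U.image fun u => u - z)
      have h5 := card_union_le (U.image fun u => u - y) (U.image fun u => u - z)
      omega)
  simp only [mem_union, not_or] at hq
  obtain ⟨h0, h1, h2, h3⟩ := hq
  exact ⟨q, h0, fun h => h1 (mem_image.2 ⟨_, h, by abel⟩),
    fun h => h2 (mem_image.2 ⟨_, h, by abel⟩), fun h => h3 (mem_image.2 ⟨_, h, by abel⟩)⟩

/-- existence of a gadget -/
theorem gadget {V : Type*} [AddCommGroup V] [Fintype V] (U FC : Finset V) (w : Fin 3 → V)
    (hw : Function.Injective w) (h0 : (0 : V) ∈ FC)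
    (hc : 4 * U.card + 4 * FC.card + 200 < Fintype.card V) :
    ∃ P : Par V, Gad U FC w P := by
  classical
  obtain ⟨p, hpU, hpF⟩ := GA_p U FC w (by omega)
  have ha0 : ∀ i, w i - p ≠ 0 := fun i h => hpF i (h ▸ h0)
  have hai : ∀ i j, i ≠ j → w i - p ≠ w j - p := fun i j hij h =>
    hij (hw (sub_left_injective h))
  obtain ⟨D, hD0, hDU, hDF, hDa⟩ := GA_D U FC (fun i => w i - p) p (by omega)
  have hDai : ∀ i, D ≠ w i - p := fun i h => hDF i (by
    rw [h, sub_self]
    exact h0)
  have hU1 : (insert p (insert (p + D) U)).card ≤ U.card + 2 :=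
    (card_insert_le _ _).trans (Nat.succ_le_succ (card_insert_le _ _))
  obtain ⟨U1, hU1e⟩ : ∃ U1, U1 = insert p (insert (p + D) U) := ⟨_, rfl⟩
  rw [← hU1e] at hU1
  obtain ⟨q, hq1, hq2, hq3, hq4⟩ := GA_q U1 D (w 0 - p) (w 1 - p) (by omega)
  obtain ⟨U2, hU2e⟩ : ∃ U2, U2 = insert q (insert (q + D) (insert (q + (w 0 - p))
    (insert (q + (w 1 - p)) U1))) := ⟨_, rfl⟩
  have hU2 : U2.card ≤ U1.card + 4 := by
    rw [hU2e]
    exact (card_insert_le _ _).trans (Nat.succ_le_succ ((card_insert_le _ _).trans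
      (Nat.succ_le_succ ((card_insert_le _ _).trans (Nat.succ_le_succ (card_insert_le _ _))))))
  obtain ⟨r, hr1, hr2, hr3, hr4⟩ := GA_q U2 D (w 1 - p) (w 2 - p) (by omega)
  obtain ⟨U3, hU3e⟩ : ∃ U3, U3 = insert r (insert (r + D) (insert (r + (w 1 - p))
    (insert (r + (w 2 - p)) U2))) := ⟨_, rfl⟩
  have hU3 : U3.card ≤ U2.card + 4 := by
    rw [hU3e]
    exact (card_insert_le _ _).trans (Nat.succ_le_succ ((card_insert_le _ _).trans
      (Nat.succ_le_succ ((card_insert_le _ _).trans (Nat.succ_le_succ (card_insert_le _ _))))))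
  obtain ⟨F1, hF1e⟩ : ∃ F1, F1 = insert (w 0 - p) (insert (D - (w 0 - p)) (insert (w 1 - p)
    (insert (D - (w 1 - p)) (insert (w 2 - p) (insert (D - (w 2 - p)) FC))))) := ⟨_, rfl⟩
  have hF1 : F1.card ≤ FC.card + 6 := by
    rw [hF1e]
    exact (card_insert_le _ _).trans (Nat.succ_le_succ ((card_insert_le _ _).trans
      (Nat.succ_le_succ ((card_insert_le _ _).trans (Nat.succ_le_succ ((card_insert_le _ _).trans
      (Nat.succ_le_succ ((card_insert_le _ _).trans (Nat.succ_le_succ
        (card_insert_le _ _))))))))))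
  obtain ⟨c, hc1, hc2, hc3, hc4, hc5⟩ := switch U3 F1 (q + (w 0 - p)) (q + (w 1 - p))
    (fun h => hai 0 1 (by decide) (add_left_cancel h)) (by omega)
  have e1 : c + (q + (w 1 - p) - (q + (w 0 - p))) = c + (w 1 - w 0) := by abel
  rw [e1] at hc2
  obtain ⟨U4, hU4e⟩ : ∃ U4, U4 = insert (q + (w 0 - p) - c) (insert (q + (w 1 - p) + c) U3) :=
    ⟨_, rfl⟩
  have hU4 : U4.card ≤ U3.card + 2 := by
    rw [hU4e]
    exact (card_insert_le _ _).trans (Nat.succ_le_succ (card_insert_le _ _))
  obtain ⟨F2, hF2e⟩ : ∃ F2, F2 = insert c (insert (c + (w 1 - w 0)) F1) := ⟨_, rfl⟩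
  have hF2 : F2.card ≤ F1.card + 2 := by
    rw [hF2e]
    exact (card_insert_le _ _).trans (Nat.succ_le_succ (card_insert_le _ _))
  obtain ⟨d, hd1, hd2, hd3, hd4, hd5⟩ := switch U4 F2 (r + (w 1 - p)) (r + (w 2 - p))
    (fun h => hai 1 2 (by decide) (add_left_cancel h)) (by omega)
  have e2 : d + (r + (w 2 - p) - (r + (w 1 - p))) = d + (w 2 - w 1) := by abel
  rw [e2] at hd2
  -- all facts
  have k1 : p ≠ p + D := fun h => hD0 (by simpa using h)
  have k2 : q ≠ q + D := fun h => hD0 (by simpa using h)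
  have k3 : r ≠ r + D := fun h => hD0 (by simpa using h)
  have k4 : q ≠ q + (w 0 - p) := fun h => ha0 0 (left_eq_add.1 h)
  have k5 : q ≠ q + (w 1 - p) := fun h => ha0 1 (left_eq_add.1 h)
  have k6 : r ≠ r + (w 1 - p) := fun h => ha0 1 (left_eq_add.1 h)
  have k7 : r ≠ r + (w 2 - p) := fun h => ha0 2 (left_eq_add.1 h)
  have k8 : q + D ≠ q + (w 0 - p) := fun h => hDai 0 (add_left_cancel h)
  have k9 : q + D ≠ q + (w 1 - p) := fun h => hDai 1 (add_left_cancel h)
  have k10 : r + D ≠ r + (w 1 - p) := fun h => hDai 1 (add_left_cancel h)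
  have k11 : r + D ≠ r + (w 2 - p) := fun h => hDai 2 (add_left_cancel h)
  have k12 : q + (w 0 - p) ≠ q + (w 1 - p) := fun h => hai 0 1 (by decide) (add_left_cancel h)
  have k13 : r + (w 1 - p) ≠ r + (w 2 - p) := fun h => hai 1 2 (by decide) (add_left_cancel h)
  have c1 : w 0 - p ≠ w 1 - p := hai 0 1 (by decide)
  have c2 : w 0 - p ≠ w 2 - p := hai 0 2 (by decide)
  have c3 : w 1 - p ≠ w 2 - p := hai 1 2 (by decide)
  have cD : ∀ i j, w i - p ≠ D - (w j - p) := fun i j h => hDa i j (by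
    show D = (w i - p) + (w j - p)
    rw [h]
    abel)
  have cE : ∀ i j, i ≠ j → D - (w i - p) ≠ D - (w j - p) := fun i j hij h =>
    hai i j hij (sub_right_injective h)
  have c4 := cD 0 0
  have c5 := cD 0 1
  have c6 := cD 0 2
  have c7 := cD 1 0
  have c8 := cD 1 1
  have c9 := cD 1 2
  have c10 := cD 2 0
  have c11 := cD 2 1
  have c12 := cD 2 2
  have c13 := cE 0 1 (by decide)
  have c14 := cE 0 2 (by decide)
  have c15 := cE 1 2 (by decide)
  have c16 : c ≠ c + (w 1 - w 0) := fun h => by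
    have := left_eq_add.1 h
    exact absurd (hw (sub_eq_zero.1 this)) (by decide)
  have c17 : d ≠ d + (w 2 - w 1) := fun h => by
    have := left_eq_add.1 h
    exact absurd (hw (sub_eq_zero.1 this)) (by decide)
  have f0 := hpF 0
  have f1 := hpF 1
  have f2 := hpF 2
  have g0 := hDF 0
  have g1 := hDF 1
  have g2 := hDF 2
  simp only [hU4e, hU3e, hU2e, hU1e, hF2e, hF1e, mem_insert, not_or] at hq1 hq2 hq3 hq4 hr1 hr2 hr3 hr4 hc1 hc2 hc3 hc4 hd1 hd2 hd3 hd4
  obtain ⟨_, _, _⟩ := hq1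
  obtain ⟨_, _, _⟩ := hq2
  obtain ⟨_, _, _⟩ := hq3
  obtain ⟨_, _, _⟩ := hq4
  obtain ⟨_, _, _, _, _, _, _⟩ := hr1
  obtain ⟨_, _, _, _, _, _, _⟩ := hr2
  obtain ⟨_, _, _, _, _, _, _⟩ := hr3
  obtain ⟨_, _, _, _, _, _, _⟩ := hr4
  obtain ⟨_, _, _, _, _, _, _⟩ := hc1
  obtain ⟨_, _, _, _, _, _, _⟩ := hc2
  obtain ⟨_, _, _, _, _, _, _, _, _, _, _⟩ := hc3
  obtain ⟨_, _, _, _, _, _, _, _, _, _, _⟩ := hc4
  obtain ⟨_, _, _, _, _, _, _, _, _⟩ := hd1
  obtain ⟨_, _, _, _, _, _, _, _, _⟩ := hd2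
  obtain ⟨_, _, _, _, _, _, _, _, _, _, _, _, _⟩ := hd3
  obtain ⟨_, _, _, _, _, _, _, _, _, _, _, _, _⟩ := hd4
  refine ⟨⟨p, D, q, r, c, d⟩, ?_, ?_, ?_, ?_⟩
  · simp only [fv, ca, List.nodup_cons, List.mem_cons, List.not_mem_nil, or_false, not_or,
      List.nodup_nil, not_false_eq_true, and_true]
    and_intros <;> first | assumption | (apply Ne.symm; assumption)
  · simp only [fv, ca, List.mem_cons, List.not_mem_nil, or_false]
    rintro u (rfl | rfl | rfl | rfl | rfl | rfl | rfl | rfl | rfl | rfl | rfl | rfl | rfl | rfl) <;>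
      assumption
  · simp only [co, ca, cb, c', d', List.nodup_cons, List.mem_cons, List.not_mem_nil, or_false,
      not_or, List.nodup_nil, not_false_eq_true, and_true]
    and_intros <;> first | assumption | (apply Ne.symm; assumption)
  · simp only [co, ca, cb, c', d', List.mem_cons, List.not_mem_nil, or_false]
    rintro u (rfl | rfl | rfl | rfl | rfl | rfl | rfl | rfl | rfl | rfl) <;> assumption

end Pool.Agent.ABS
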