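import Pool.Agent.Lib_helper26.SNF.Defs
import Pool.Agent.Lib_helper8.ABS.FI

/-! The vertex absorber in the form needed by project SNF. -/

namespace Pool.Agent.SNF

open Finset Pool.Agent.SDN

open Classical in
theorem absorber : ∃ C₁ : ℕ, 1 ≤ C₁ ∧ ∀ {G : Type} [AddCommGroup G] [Fintype G] (h : ℕ)
    (W C V : Finset G), 10 ≤ h → W.card = 2 * h → W ⊆ V → C₁ * h ≤ Fintype.card G →
      200 * C.card ≤ Fintype.card G → 200 * V.card ≤ Fintype.card G →
      ∃ (q : ℕ) (p e : Fin q → G) (D Q : Finset G), q ≤ C₁ * h ∧ D.card ≤ C₁ * h ∧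
        Q.card ≤ C₁ * h ∧ Disjoint D C ∧ Disjoint Q V ∧ Function.Injective p ∧
        Function.Injective e ∧ (∀ i j, p i ≠ e j) ∧ (∀ i, p i ∈ Q ∧ e i ∈ Q) ∧
        Q.card + h = D.card + q ∧ Abs h W D Q p e := ABS.absorber

end Pool.Agent.SNF
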