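import Pool.Agent.Lib_helper8.ABS.Defs

/-! Block SW (project ABS), helper73. -/

namespace Pool.Agent.ABS

open Finset

open Classical in
theorem double_le {V : Type*} [AddCommGroup V] [Fintype V] (g : V) (hg : g ≠ 0) :
    2 * (univ.filter fun b : V => b + b = g).card ≤ Fintype.card V := by
  rcases (univ.filter fun b : V => b + b = g).eq_empty_or_nonempty with h | ⟨b0, hb0⟩
  · rw [h]
    simp
  · have hb : b0 + b0 = g := (mem_filter.1 hb0).2
    have hd : Disjoint (univ.filter fun b : V => b + b = g)
        ((univ.filter fun b : V => b + b = g).image fun b => b + b0) := by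
      rw [disjoint_left]
      intro x hx hx'
      obtain ⟨b, hb1, rfl⟩ := mem_image.1 hx'
      have h1 : (b + b0) + (b + b0) = g := (mem_filter.1 hx).2
      have h2 : b + b = g := (mem_filter.1 hb1).2
      have h3 : (b + b0) + (b + b0) = g + g := by
        rw [add_add_add_comm, h2, hb]
      rw [h3] at h1
      exact hg (by simpa using h1)
    have hc := card_union_of_disjoint hd
    rw [card_image_of_injective _ (add_left_injective b0)] at hc
    have h4 := card_le_univ ((univ.filter fun b : V => b + b = g) ∪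
      ((univ.filter fun b : V => b + b = g).image fun b => b + b0))
    omega

/-- the colours of one switch -/
theorem switch {V : Type*} [AddCommGroup V] [Fintype V] (U FC : Finset V) (g₁ g₂ : V)
    (hg : g₁ ≠ g₂) (hc : 4 * U.card + 4 * FC.card < Fintype.card V) :
    ∃ c : V, c ∉ FC ∧ c + (g₂ - g₁) ∉ FC ∧ g₁ - c ∉ U ∧ g₂ + c ∉ U ∧ g₁ - c ≠ g₂ + c := by
  classical
  by_contra! H
  have hsub : (univ : Finset V) ⊆ (((FC ∪ FC.image fun x => x - (g₂ - g₁)) ∪
      U.image fun x => g₁ - x) ∪ U.image fun x => x - g₂) ∪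
        (univ.filter fun b : V => b + b = g₁ - g₂) := by
    intro c _
    simp only [mem_union, mem_image, mem_filter, mem_univ, true_and]
    by_cases h1 : c ∈ FC
    · exact Or.inl (Or.inl (Or.inl (Or.inl h1)))
    by_cases h2 : c + (g₂ - g₁) ∈ FC
    · exact Or.inl (Or.inl (Or.inl (Or.inr ⟨_, h2, by abel⟩)))
    by_cases h3 : g₁ - c ∈ U
    · exact Or.inl (Or.inl (Or.inr ⟨_, h3, by abel⟩))
    by_cases h4 : g₂ + c ∈ U
    · exact Or.inl (Or.inr ⟨_, h4, by abel⟩)
    have h5 := H c h1 h2 h3 h4
    refine Or.inr ?_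
    rw [eq_sub_iff_add_eq]
    have h6 : c + c + g₂ = (g₂ + c) + c := by abel
    rw [h6, ← h5]
    abel
  have h1 := card_le_card hsub
  have h2 := double_le (g₁ - g₂) (sub_ne_zero.2 hg)
  have h3 := card_union_le (((FC ∪ FC.image fun x => x - (g₂ - g₁)) ∪
      U.image fun x => g₁ - x) ∪ U.image fun x => x - g₂)
        (univ.filter fun b : V => b + b = g₁ - g₂)
  have h4 := card_union_le ((FC ∪ FC.image fun x => x - (g₂ - g₁)) ∪
      U.image fun x => g₁ - x) (U.image fun x => x - g₂)
  have h5 := card_union_le (FC ∪ FC.image fun x => x - (g₂ - g₁)) (U.image fun x => g₁ - x)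
  have h6 := card_union_le FC (FC.image fun x => x - (g₂ - g₁))
  have h7 : (FC.image fun x => x - (g₂ - g₁)).card ≤ FC.card := card_image_le
  have h8 : (U.image fun x => g₁ - x).card ≤ U.card := card_image_le
  have h9 : (U.image fun x => x - g₂).card ≤ U.card := card_image_le
  rw [card_univ] at h1
  omega

end Pool.Agent.ABS
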