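import Pool.Agent.Lib_helper8.ABS.EX

/-! Block TE (project ABS): robustly matchable bipartite graphs. -/

namespace Pool.Agent.ABS

open Finset

/-- the number of allowed elements -/
theorem TE_allowed (h : ℕ) (X' : Finset (Fin (2 * h))) (hX : X'.card = h) :
    ∃ M : Finset (Fin (2 * h) ⊕ Fin (2 * h)), M.card = 3 * h ∧
      ∀ y, y ∈ M ↔ ∀ x, y = Sum.inl x → x ∈ X' := by
  classical
  refine ⟨X'.disjSum univ, ?_, ?_⟩
  · rw [card_disjSum, hX, card_univ, Fintype.card_fin]
    omega
  · rintro (x | x)
    · simp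
    · simp

/-- robustly matchable bipartite graphs: nodes `Fin (3 h)`, elements `Fin (2 h) ⊕ Fin (2 h)`
(flexible ones and fixed ones) -/
theorem template : ∀ h : ℕ, 2 ≤ h →
    ∃ nb : Fin (3 * h) → Finset (Fin (2 * h) ⊕ Fin (2 * h)), (∀ z, 3 ≤ (nb z).card) ∧
      ∑ z, (nb z).card ≤ 300 * h ∧
      ∀ X' : Finset (Fin (2 * h)), X'.card = h →
        ∃ σ : Fin (3 * h) → Fin (2 * h) ⊕ Fin (2 * h), Function.Injective σ ∧
          ∀ z, σ z ∈ nb z ∧ ∀ x, σ z = Sum.inl x → x ∈ X' := by
  classical
  intro h hh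
  obtain ⟨φ, hφ⟩ := expander (3 * h) (2 * h) (by omega) (by omega)
  obtain ⟨ψ, hψ⟩ := expander (4 * h) (3 * h) (by omega) (by omega)
  set e : Fin (2 * h) ⊕ Fin (2 * h) ≃ Fin (4 * h) :=
    finSumFinEquiv.trans (finCongr (by ring)) with he
  set a0 : Fin (2 * h) := ⟨0, by omega⟩ with ha0
  set a1 : Fin (2 * h) := ⟨1, by omega⟩ with ha1
  set a2 : Fin (2 * h) := ⟨2, by omega⟩ with ha2
  set T3 : Finset (Fin (2 * h) ⊕ Fin (2 * h)) := {Sum.inr a0, Sum.inr a1, Sum.inr a2} with hT3
  have hT3c : T3.card = 3 := by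
    rw [hT3, card_eq_three]
    refine ⟨_, _, _, ?_, ?_, ?_, rfl⟩ <;> simp [ha0, ha1, ha2]
  set A : Fin (3 * h) → Finset (Fin (2 * h) ⊕ Fin (2 * h)) :=
    fun z => univ.image fun j => Sum.inr (φ j z) with hA
  set B : Fin (3 * h) → Finset (Fin (2 * h) ⊕ Fin (2 * h)) :=
    fun z => univ.filter fun y => ∃ j, ψ j (e y) = z with hB
  refine ⟨fun z => A z ∪ B z ∪ T3, ?_, ?_, ?_⟩
  · intro z
    calc 3 = T3.card := hT3c.symm
      _ ≤ (A z ∪ B z ∪ T3).card := card_le_card subset_union_right
  · have h1 : ∀ z, (A z ∪ B z ∪ T3).card ≤ 33 + (B z).card := by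
      intro z
      have e1 := card_union_le (A z ∪ B z) T3
      have e2 := card_union_le (A z) (B z)
      have e3 : (A z).card ≤ 30 := by
        refine card_image_le.trans ?_
        rw [card_univ, Fintype.card_fin]
      omega
    have h2 : ∑ z, (B z).card = ∑ y : Fin (2 * h) ⊕ Fin (2 * h),
        (univ.filter fun z => ∃ j, ψ j (e y) = z).card := by
      simp only [hB, card_filter]
      rw [sum_comm]
    have h3 : ∀ y : Fin (2 * h) ⊕ Fin (2 * h),
        (univ.filter fun z => ∃ j, ψ j (e y) = z).card ≤ 30 := by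
      intro y
      have : (univ.filter fun z => ∃ j, ψ j (e y) = z) ⊆ univ.image fun j => ψ j (e y) := by
        intro z hz
        obtain ⟨j, hj⟩ := (mem_filter.1 hz).2
        exact mem_image.2 ⟨j, mem_univ _, hj⟩
      refine (card_le_card this).trans (card_image_le.trans ?_)
      rw [card_univ, Fintype.card_fin]
    have h4 : ∑ z, (B z).card ≤ 120 * h := by
      rw [h2]
      calc ∑ y : Fin (2 * h) ⊕ Fin (2 * h), (univ.filter fun z => ∃ j, ψ j (e y) = z).card
          ≤ ∑ _y : Fin (2 * h) ⊕ Fin (2 * h), 30 := sum_le_sum fun y _ => h3 y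
        _ = 120 * h := by
          rw [sum_const, card_univ, Fintype.card_sum, Fintype.card_fin, smul_eq_mul]
          ring
    calc ∑ z, (A z ∪ B z ∪ T3).card ≤ ∑ z, (33 + (B z).card) := sum_le_sum fun z _ => h1 z
      _ = 33 * (3 * h) + ∑ z, (B z).card := by
        rw [sum_add_distrib, sum_const, card_univ, Fintype.card_fin, smul_eq_mul]
        ring
      _ ≤ 300 * h := by omega
  · intro X' hX'
    obtain ⟨M0, hM0, hM0m⟩ := TE_allowed h X' hX'
    set t : Fin (3 * h) → Finset (Fin (2 * h) ⊕ Fin (2 * h)) :=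
      fun z => (A z ∪ B z ∪ T3).filter fun y => y ∈ M0 with ht
    have hall : ∀ T : Finset (Fin (3 * h)), T.card ≤ (T.biUnion t).card := by
      intro T
      by_cases hT : 5 * T.card ≤ 4 * (2 * h)
      · refine (hφ T hT).trans ?_
        rw [← card_image_of_injective (f := (Sum.inr : Fin (2 * h) → Fin (2 * h) ⊕ Fin (2 * h)))
          _ Sum.inr_injective]
        refine card_le_card ?_
        intro y hy
        obtain ⟨x, hx, rfl⟩ := mem_image.1 hy
        obtain ⟨z, hz, hx⟩ := mem_biUnion.1 hx
        obtain ⟨j, -, rfl⟩ := mem_image.1 hx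
        refine mem_biUnion.2 ⟨z, hz, ?_⟩
        rw [ht]
        simp only [mem_filter]
        refine ⟨mem_union_left _ (mem_union_left _ (mem_image.2 ⟨j, mem_univ _, rfl⟩)), ?_⟩
        rw [hM0m]
        intro x hx
        cases hx
      · by_contra hcon
        have hlt : (T.biUnion t).card < T.card := not_le.1 hcon
        have hTle : T.card ≤ 3 * h := by
          have := card_le_univ T
          rwa [Fintype.card_fin] at this
        have hM : 3 * h - T.card + 1 ≤ (M0 \ T.biUnion t).card := by
          have := le_card_sdiff (T.biUnion t) M0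
          omega
        obtain ⟨T', hT'sub, hT'c⟩ := exists_subset_card_eq hM
        have h5 : 5 * (T'.image e).card ≤ 4 * (3 * h) := by
          rw [card_image_of_injective _ e.injective, hT'c]
          omega
        have h6 := hψ (T'.image e) h5
        rw [card_image_of_injective _ e.injective, hT'c] at h6
        set P := (T'.image e).biUnion fun a => univ.image fun j => ψ j a with hP
        have h7 : ¬ Disjoint P T := by
          intro hd
          have h8 := card_union_of_disjoint hd
          have h9 := card_le_univ (P ∪ T)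
          rw [Fintype.card_fin] at h9
          omega
        rw [not_disjoint_iff] at h7
        obtain ⟨z, hzP, hzT⟩ := h7
        obtain ⟨b, hb, hz⟩ := mem_biUnion.1 hzP
        obtain ⟨y, hy, rfl⟩ := mem_image.1 hb
        obtain ⟨j, -, hj⟩ := mem_image.1 hz
        have hyM := mem_sdiff.1 (hT'sub hy)
        apply hyM.2
        refine mem_biUnion.2 ⟨z, hzT, ?_⟩
        rw [ht]
        simp only [mem_filter]
        refine ⟨mem_union_left _ (mem_union_right _ ?_), hyM.1⟩
        rw [hB]
        simp only [mem_filter]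
        exact ⟨mem_univ _, j, hj⟩
    obtain ⟨σ, hσ, hσt⟩ := (all_card_le_biUnion_card_iff_exists_injective t).1 hall
    refine ⟨σ, hσ, fun z => ?_⟩
    have := hσt z
    rw [ht] at this
    simp only [mem_filter] at this
    exact ⟨this.1, (hM0m _).1 this.2⟩

end Pool.Agent.ABS
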